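import Mathlib

set_option autoImplicit false

namespace Pool.Agent.Results.MP_5333ad_co.LinearInDimension

/-- Two points of `ℤ^d` are adjacent when their `ℓ¹`-distance is `1`. -/
def LatticeAdj {d : ℕ} (x y : Fin d → ℤ) : Prop := ∑ i, |x i - y i| = 1

/-- The edge boundary of `S`: the edges `{x, y}` of `ℤ^d` with exactly one endpoint in `S`. -/
def edgeBoundary {d : ℕ} (S : Finset (Fin d → ℤ)) : Set (Sym2 (Fin d → ℤ)) :=
  {e | ∃ x y, x ∈ S ∧ y ∉ S ∧ LatticeAdj x y ∧ e = s(x, y)}

/-- The cube `a + {0, 1, ..., k - 1}^d`. -/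
noncomputable def cube {d : ℕ} (a : Fin d → ℤ) (k : ℕ) : Finset (Fin d → ℤ) :=
  Fintype.piFinset fun i => Finset.Ico (a i) (a i + k)

/-- `S` satisfies the boundary condition of the question with parameter `ε`. -/
def NearOptimal (d : ℕ) (ε : ℝ) (S : Finset (Fin d → ℤ)) : Prop :=
  ((edgeBoundary S).ncard : ℝ) ≤ 2 * d * (S.card : ℝ) ^ (((d : ℝ) - 1) / d) * (1 + ε)

/-! ### Boxes -/

/-- the box with side lengths `a i` -/
noncomputable def box {d : ℕ} (a : Fin d → ℕ) : Finset (Fin d → ℤ) :=
  Fintype.piFinset fun i => Finset.Ico 0 (a i : ℤ)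

theorem mem_box {d : ℕ} {a : Fin d → ℕ} {x : Fin d → ℤ} :
    x ∈ box a ↔ ∀ i, 0 ≤ x i ∧ x i < a i := by
  simp [box, Fintype.mem_piFinset]

theorem card_box {d : ℕ} (a : Fin d → ℕ) : (box a).card = ∏ i, a i := by
  simp [box, Fintype.card_piFinset]

theorem card_cube {d : ℕ} (a : Fin d → ℤ) (k : ℕ) : (cube a k).card = k ^ d := by
  simp [cube, Fintype.card_piFinset]

/-- a face of the box -/
noncomputable def face {d : ℕ} (a : Fin d → ℕ) (i : Fin d) (c : ℤ) : Finset (Fin d → ℤ) :=
  Fintype.piFinset fun j => if j = i then {c} else Finset.Ico 0 (a j : ℤ)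

theorem card_face {d : ℕ} (a : Fin d → ℕ) (i : Fin d) (c : ℤ) :
    (face a i c).card * a i = (box a).card := by
  rw [card_box, face, Fintype.card_piFinset]
  rw [← Finset.mul_prod_erase Finset.univ _ (Finset.mem_univ i),
    ← Finset.mul_prod_erase Finset.univ a (Finset.mem_univ i)]
  rw [if_pos rfl, Finset.card_singleton, one_mul, mul_comm]
  congr 1
  apply Finset.prod_congr rfl
  intro j hj
  rw [if_neg (Finset.ne_of_mem_erase hj)]
  simp

/-- the neighbour of `x` in direction `i` -/
def nb {d : ℕ} (i : Fin d) (s : ℤ) (x : Fin d → ℤ) : Fin d → ℤ := Function.update x i (x i + s)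

theorem boundary_subset {d : ℕ} (a : Fin d → ℕ) :
    edgeBoundary (box a) ⊆ ⋃ i ∈ (Finset.univ : Finset (Fin d)),
      (((fun x => s(x, nb i (-1) x)) '' (face a i 0 : Set (Fin d → ℤ))) ∪
        ((fun x => s(x, nb i 1 x)) '' (face a i ((a i : ℤ) - 1) : Set (Fin d → ℤ)))) := by
  rintro e ⟨x, y, hx, hy, hxy, rfl⟩
  rw [mem_box] at hx
  rw [mem_box] at hy
  push Not at hy
  obtain ⟨i, hi⟩ := hy
  have hne : x i ≠ y i := by
    intro h
    have h1 := hx i
    rw [h] at h1
    exact absurd (hi h1.1) (not_le.2 h1.2)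
  unfold LatticeAdj at hxy
  rw [← Finset.add_sum_erase Finset.univ _ (Finset.mem_univ i)] at hxy
  have h1 : 1 ≤ |x i - y i| := Int.one_le_abs (sub_ne_zero.2 hne)
  have h2 : 0 ≤ ∑ j ∈ Finset.univ.erase i, |x j - y j| := Finset.sum_nonneg fun j _ => abs_nonneg _
  have h3 : |x i - y i| = 1 := by omega
  have h4 : ∑ j ∈ Finset.univ.erase i, |x j - y j| = 0 := by omega
  have h5 : ∀ j, j ≠ i → x j = y j := by
    intro j hj
    have := (Finset.sum_eq_zero_iff_of_nonneg (fun j _ => abs_nonneg _)).1 h4 j
      (Finset.mem_erase.2 ⟨hj, Finset.mem_univ j⟩)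
    rw [abs_eq_zero] at this
    omega
  have hxi := hx i
  simp only [Finset.mem_univ, Set.iUnion_true, Set.mem_iUnion, Set.mem_union, Set.mem_image]
  refine ⟨i, ?_⟩
  have hcases : (x i = 0 ∧ y i = -1) ∨ (x i = a i - 1 ∧ y i = a i) := by
    rcases abs_eq (show (0 : ℤ) ≤ 1 by norm_num) |>.1 h3 with h | h
    · left
      by_cases h0 : 0 ≤ y i
      · have := hi h0
        omega
      · omega
    · right
      have h0 : 0 ≤ y i := by omega
      have := hi h0
      omega
  rcases hcases with ⟨h6, h7⟩ | ⟨h6, h7⟩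
  · left
    refine ⟨x, ?_, ?_⟩
    · rw [Finset.mem_coe, face, Fintype.mem_piFinset]
      intro j
      by_cases hj : j = i
      · subst hj
        simp [h6]
      · simp [hj, hx j]
    · have : nb i (-1) x = y := by
        funext j
        by_cases hj : j = i
        · subst hj
          simp [nb, h6, h7]
        · simp [nb, hj, h5 j hj]
      rw [this]
  · right
    refine ⟨x, ?_, ?_⟩
    · rw [Finset.mem_coe, face, Fintype.mem_piFinset]
      intro j
      by_cases hj : j = i
      · subst hj
        simp [h6]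
      · simp [hj, hx j]
    · have : nb i 1 x = y := by
        funext j
        by_cases hj : j = i
        · subst hj
          simp [nb, h6, h7]
        · simp [nb, hj, h5 j hj]
      rw [this]

theorem boundary_le {d : ℕ} (a : Fin d → ℕ) (ha : ∀ i, 0 < a i) :
    ((edgeBoundary (box a)).ncard : ℝ) ≤ ∑ i, 2 * ((box a).card : ℝ) / a i := by
  have hfin : ∀ i : Fin d,
      ((((fun x => s(x, nb i (-1) x)) '' (face a i 0 : Set (Fin d → ℤ))) ∪
        ((fun x => s(x, nb i 1 x)) '' (face a i ((a i : ℤ) - 1) : Set (Fin d → ℤ)))) :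
          Set (Sym2 (Fin d → ℤ))).Finite := by
    intro i
    exact ((Finset.finite_toSet _).image _).union ((Finset.finite_toSet _).image _)
  have h1 : (edgeBoundary (box a)).ncard ≤ ∑ i : Fin d,
      ((((fun x => s(x, nb i (-1) x)) '' (face a i 0 : Set (Fin d → ℤ))) ∪
        ((fun x => s(x, nb i 1 x)) '' (face a i ((a i : ℤ) - 1) : Set (Fin d → ℤ)))) :
          Set (Sym2 (Fin d → ℤ))).ncard := by
    refine (Set.ncard_le_ncard (boundary_subset a) ?_).trans ?_
    · exact Set.Finite.biUnion (Finset.finite_toSet _) (fun i _ => hfin i)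
    · exact Finset.set_ncard_biUnion_le _ _
  have h2 : ∀ i : Fin d,
      (((((fun x => s(x, nb i (-1) x)) '' (face a i 0 : Set (Fin d → ℤ))) ∪
        ((fun x => s(x, nb i 1 x)) '' (face a i ((a i : ℤ) - 1) : Set (Fin d → ℤ)))) :
          Set (Sym2 (Fin d → ℤ))).ncard : ℝ) ≤ 2 * ((box a).card : ℝ) / a i := by
    intro i
    have h3 : ((((fun x => s(x, nb i (-1) x)) '' (face a i 0 : Set (Fin d → ℤ))) ∪
        ((fun x => s(x, nb i 1 x)) '' (face a i ((a i : ℤ) - 1) : Set (Fin d → ℤ)))) :
          Set (Sym2 (Fin d → ℤ))).ncard ≤ (face a i 0).card + (face a i ((a i : ℤ) - 1)).card := by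
      refine (Set.ncard_union_le _ _).trans ?_
      apply Nat.add_le_add
      · refine (Set.ncard_image_le (Finset.finite_toSet _)).trans ?_
        rw [Set.ncard_coe_finset]
      · refine (Set.ncard_image_le (Finset.finite_toSet _)).trans ?_
        rw [Set.ncard_coe_finset]
    have hai : (0 : ℝ) < a i := by exact_mod_cast ha i
    rw [le_div_iff₀ hai]
    have h4 := card_face a i 0
    have h5 := card_face a i ((a i : ℤ) - 1)
    have h4' : ((face a i 0).card : ℝ) * a i = (box a).card := by exact_mod_cast h4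
    have h5' : ((face a i ((a i : ℤ) - 1)).card : ℝ) * a i = (box a).card := by exact_mod_cast h5
    have h3' : (((((fun x => s(x, nb i (-1) x)) '' (face a i 0 : Set (Fin d → ℤ))) ∪
        ((fun x => s(x, nb i 1 x)) '' (face a i ((a i : ℤ) - 1) : Set (Fin d → ℤ)))) :
          Set (Sym2 (Fin d → ℤ))).ncard : ℝ) ≤
            (face a i 0).card + (face a i ((a i : ℤ) - 1)).card := by exact_mod_cast h3
    nlinarith
  calc ((edgeBoundary (box a)).ncard : ℝ) ≤ ((∑ i : Fin d,
      ((((fun x => s(x, nb i (-1) x)) '' (face a i 0 : Set (Fin d → ℤ))) ∪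
        ((fun x => s(x, nb i 1 x)) '' (face a i ((a i : ℤ) - 1) : Set (Fin d → ℤ)))) :
          Set (Sym2 (Fin d → ℤ))).ncard : ℕ) : ℝ) := by exact_mod_cast h1
    _ ≤ ∑ i, 2 * ((box a).card : ℝ) / a i := by
      rw [Nat.cast_sum]
      exact Finset.sum_le_sum fun i _ => h2 i

/-! ### Products -/

theorem prod_le_pow_mul {d : ℕ} (f g : Fin d → ℝ) (r : ℝ) (H : Finset (Fin d))
    (hf : ∀ i, 0 ≤ f i) (hfg : ∀ i, f i ≤ g i) (hH : ∀ i ∈ H, f i ≤ r * g i) :
    ∏ i, f i ≤ r ^ H.card * ∏ i, g i := by
  classical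
  calc ∏ i, f i ≤ ∏ i, ((if i ∈ H then r else 1) * g i) := by
        apply Finset.prod_le_prod
        · intro i _; exact hf i
        · intro i _
          by_cases h : i ∈ H
          · rw [if_pos h]; exact hH i h
          · rw [if_neg h, one_mul]; exact hfg i
    _ = r ^ H.card * ∏ i, g i := by
        rw [Finset.prod_mul_distrib]
        congr 1
        rw [Finset.prod_ite_mem, Finset.univ_inter, Finset.prod_const]

/-! ### The boxes of the counterexample -/

/-- the side lengths: the first `h` are `N + 1`, the next `h` are `N - 1`, the rest is `N` -/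
def side (d N : ℕ) (i : Fin d) : ℕ :=
  if (i : ℕ) < d / 2 then N + 1 else if (i : ℕ) < 2 * (d / 2) then N - 1 else N

/-- the first indices -/
def lo (d : ℕ) : Finset (Fin d) := Finset.univ.filter fun i => (i : ℕ) < d / 2

/-- the next indices -/
def mi (d : ℕ) : Finset (Fin d) := Finset.univ.filter fun i => d / 2 ≤ (i : ℕ) ∧ (i : ℕ) < 2 * (d / 2)

theorem card_lo (d : ℕ) : (lo d).card = d / 2 := by
  unfold lo
  rw [Fin.card_filter_val_lt]
  omega

theorem card_mi (d : ℕ) : (mi d).card = d / 2 := by
  have h1 : (Finset.univ.filter fun i : Fin d => (i : ℕ) < 2 * (d / 2)).card = 2 * (d / 2) := by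
    rw [Fin.card_filter_val_lt]
    omega
  have h2 : (Finset.univ.filter fun i : Fin d => (i : ℕ) < 2 * (d / 2)) = lo d ∪ mi d := by
    ext i
    simp only [lo, mi, Finset.mem_filter, Finset.mem_univ, true_and, Finset.mem_union]
    omega
  have h3 : Disjoint (lo d) (mi d) := by
    rw [Finset.disjoint_left]
    intro i hi hi'
    simp only [lo, mi, Finset.mem_filter, Finset.mem_univ, true_and] at hi hi'
    omega
  rw [h2, Finset.card_union_of_disjoint h3, card_lo] at h1
  omega

theorem side_lo {d N : ℕ} {i : Fin d} (h : i ∈ lo d) : side d N i = N + 1 := by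
  simp only [lo, Finset.mem_filter, Finset.mem_univ, true_and] at h
  simp [side, h]

theorem side_mi {d N : ℕ} {i : Fin d} (h : i ∈ mi d) : side d N i = N - 1 := by
  simp only [mi, Finset.mem_filter, Finset.mem_univ, true_and] at h
  rw [side, if_neg (by omega), if_pos h.2]

theorem side_other {d N : ℕ} {i : Fin d} (h : i ∉ lo d) (h' : i ∉ mi d) : side d N i = N := by
  simp only [lo, mi, Finset.mem_filter, Finset.mem_univ, true_and] at h h'
  rw [side, if_neg h, if_neg (by omega)]

/-- sums of functions of the side length -/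
theorem sum_side (d N : ℕ) (F : ℕ → ℝ) :
    ∑ i, F (side d N i) = (d / 2 : ℕ) * (F (N + 1) + F (N - 1)) + (d - 2 * (d / 2) : ℕ) * F N := by
  classical
  have hdisj : Disjoint (lo d) (mi d) := by
    rw [Finset.disjoint_left]
    intro i hi hi'
    simp only [lo, mi, Finset.mem_filter, Finset.mem_univ, true_and] at hi hi'
    omega
  rw [← Finset.sum_add_sum_compl (lo d ∪ mi d), Finset.sum_union hdisj]
  have h1 : ∑ i ∈ lo d, F (side d N i) = (d / 2 : ℕ) * F (N + 1) := by
    rw [Finset.sum_congr rfl (fun i hi => by rw [side_lo hi]), Finset.sum_const, card_lo,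
      nsmul_eq_mul]
  have h2 : ∑ i ∈ mi d, F (side d N i) = (d / 2 : ℕ) * F (N - 1) := by
    rw [Finset.sum_congr rfl (fun i hi => by rw [side_mi hi]), Finset.sum_const, card_mi,
      nsmul_eq_mul]
  have h3 : ∑ i ∈ (lo d ∪ mi d)ᶜ, F (side d N i) = (d - 2 * (d / 2) : ℕ) * F N := by
    have : ∀ i ∈ (lo d ∪ mi d)ᶜ, F (side d N i) = F N := by
      intro i hi
      rw [Finset.mem_compl, Finset.mem_union, not_or] at hi
      rw [side_other hi.1 hi.2]
    rw [Finset.sum_congr rfl this, Finset.sum_const, Finset.card_compl,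
      Finset.card_union_of_disjoint hdisj, card_lo, card_mi, nsmul_eq_mul, Fintype.card_fin]
    congr 3
    omega
  rw [h1, h2, h3]
  ring

theorem prod_side_le (d N : ℕ) (hN : 1 ≤ N) : (∏ i, (side d N i : ℝ)) ≤ (N : ℝ) ^ d := by
  classical
  have hdisj : Disjoint (lo d) (mi d) := by
    rw [Finset.disjoint_left]
    intro i hi hi'
    simp only [lo, mi, Finset.mem_filter, Finset.mem_univ, true_and] at hi hi'
    omega
  rw [← Finset.prod_mul_prod_compl (lo d ∪ mi d), Finset.prod_union hdisj]
  have h1 : ∏ i ∈ lo d, (side d N i : ℝ) = ((N : ℝ) + 1) ^ (d / 2) := by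
    rw [Finset.prod_congr rfl (fun i hi => by rw [side_lo hi]), Finset.prod_const, card_lo]
    push_cast
    rfl
  have h2 : ∏ i ∈ mi d, (side d N i : ℝ) = ((N : ℝ) - 1) ^ (d / 2) := by
    rw [Finset.prod_congr rfl (fun i hi => by rw [side_mi hi]), Finset.prod_const, card_mi,
      Nat.cast_sub hN]
    push_cast
    rfl
  have h3 : ∏ i ∈ (lo d ∪ mi d)ᶜ, (side d N i : ℝ) = (N : ℝ) ^ (d - 2 * (d / 2)) := by
    have : ∀ i ∈ (lo d ∪ mi d)ᶜ, (side d N i : ℝ) = N := by
      intro i hi
      rw [Finset.mem_compl, Finset.mem_union, not_or] at hi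
      rw [side_other hi.1 hi.2]
    rw [Finset.prod_congr rfl this, Finset.prod_const, Finset.card_compl,
      Finset.card_union_of_disjoint hdisj, card_lo, card_mi, Fintype.card_fin]
    congr 1
    omega
  rw [h1, h2, h3, ← mul_pow]
  have hN' : (1 : ℝ) ≤ N := by exact_mod_cast hN
  have h4 : (((N : ℝ) + 1) * ((N : ℝ) - 1)) ^ (d / 2) ≤ ((N : ℝ) ^ 2) ^ (d / 2) := by
    apply pow_le_pow_left₀
    · nlinarith
    · nlinarith
  calc (((N : ℝ) + 1) * ((N : ℝ) - 1)) ^ (d / 2) * (N : ℝ) ^ (d - 2 * (d / 2))
      ≤ ((N : ℝ) ^ 2) ^ (d / 2) * (N : ℝ) ^ (d - 2 * (d / 2)) := by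
        apply mul_le_mul_of_nonneg_right h4 (by positivity)
    _ = (N : ℝ) ^ d := by
        rw [← pow_mul, ← pow_add]
        congr 1
        omega

/-- the intersection of a box and a cube -/
theorem card_inter_le {d : ℕ} (a : Fin d → ℕ) (b : Fin d → ℤ) (k : ℕ) (u : Fin d → ℝ)
    (hu : ∀ i, (a i : ℝ) ≤ u i ∨ (k : ℝ) ≤ u i) :
    (((box a) ∩ (cube b k)).card : ℝ) ≤ ∏ i, u i := by
  classical
  have h1 : box a ∩ cube b k =
      Fintype.piFinset fun i => Finset.Ico 0 (a i : ℤ) ∩ Finset.Ico (b i) (b i + k) := by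
    ext x
    simp only [box, cube, Finset.mem_inter, Fintype.mem_piFinset]
    constructor
    · rintro ⟨h, h'⟩ i
      exact ⟨h i, h' i⟩
    · intro h
      exact ⟨fun i => (h i).1, fun i => (h i).2⟩
  rw [h1, Fintype.card_piFinset, Nat.cast_prod]
  apply Finset.prod_le_prod
  · intro i _; positivity
  · intro i _
    rcases hu i with h | h
    · refine le_trans ?_ h
      have := Finset.card_le_card (Finset.inter_subset_left :
        Finset.Ico 0 (a i : ℤ) ∩ Finset.Ico (b i) (b i + k) ⊆ Finset.Ico 0 (a i : ℤ))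
      rw [Int.card_Ico] at this
      have h2 : ((a i : ℤ) - 0).toNat = a i := by simp
      rw [h2] at this
      exact_mod_cast this
    · refine le_trans ?_ h
      have := Finset.card_le_card (Finset.inter_subset_right :
        Finset.Ico 0 (a i : ℤ) ∩ Finset.Ico (b i) (b i + k) ⊆ Finset.Ico (b i) (b i + k))
      rw [Int.card_Ico] at this
      have h2 : (b i + (k : ℤ) - b i).toNat = k := by simp
      rw [h2] at this
      exact_mod_cast this

/-- The main estimate for the box. -/
theorem key (d N : ℕ) (hd : 2 ≤ d) (hN : 2 ≤ N) (hdN : d ≤ N) :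
    NearOptimal d (2 / (N : ℝ) ^ 2) (box (side d N)) ∧
    ∀ (b : Fin d → ℤ) (k : ℕ), 1 ≤ k →
      (d : ℝ) * √(2 / (N : ℝ) ^ 2) * ((box (side d N)).card : ℝ) ≤
        9 * ((symmDiff (box (side d N)) (cube b k)).card : ℝ) := by
  classical
  have hN0 : (2 : ℝ) ≤ N := by exact_mod_cast hN
  have hd0 : (2 : ℝ) ≤ d := by exact_mod_cast hd
  have hpos : ∀ i, 0 < side d N i := by
    intro i
    unfold side
    split_ifs <;> omega
  have hcard : ((box (side d N)).card : ℝ) = ∏ i, (side d N i : ℝ) := by
    rw [card_box, Nat.cast_prod]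
  have hcpos : (0 : ℝ) < (box (side d N)).card := by
    rw [hcard]
    apply Finset.prod_pos
    intro i _
    exact_mod_cast hpos i
  have hle : ((box (side d N)).card : ℝ) ≤ (N : ℝ) ^ d := by
    rw [hcard]; exact prod_side_le d N (by omega)
  refine ⟨?_, ?_⟩
  · unfold NearOptimal
    refine (boundary_le (side d N) hpos).trans ?_
    have h1 : ∑ i, 2 * ((box (side d N)).card : ℝ) / (side d N i) =
        2 * ((box (side d N)).card : ℝ) * ∑ i, (fun m : ℕ => (1 : ℝ) / m) (side d N i) := by
      rw [Finset.mul_sum]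
      apply Finset.sum_congr rfl
      intro i _
      simp only
      ring
    rw [h1, sum_side d N (fun m : ℕ => (1 : ℝ) / m)]
    set h : ℕ := d / 2 with hh
    have hsum : ((h : ℕ) : ℝ) * (1 / ((N + 1 : ℕ) : ℝ) + 1 / ((N - 1 : ℕ) : ℝ)) +
        ((d - 2 * h : ℕ) : ℝ) * (1 / (N : ℝ)) ≤ (d : ℝ) / N * (1 + 2 / (N : ℝ) ^ 2) := by
      have e1 : ((N + 1 : ℕ) : ℝ) = N + 1 := by push_cast; ring
      have e2 : ((N - 1 : ℕ) : ℝ) = N - 1 := by
        rw [Nat.cast_sub (by omega)]; simp
      have e3 : ((d - 2 * h : ℕ) : ℝ) = d - 2 * h := by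
        rw [Nat.cast_sub (by omega)]; push_cast; ring
      rw [e1, e2, e3]
      have hN1 : (0 : ℝ) < N - 1 := by linarith
      have hN2 : (0 : ℝ) < (N : ℝ) ^ 2 - 1 := by nlinarith
      have e4 : (1 / ((N : ℝ) + 1) + 1 / ((N : ℝ) - 1)) = 2 * N / ((N : ℝ) ^ 2 - 1) := by
        field_simp
        ring
      have e5 : (N : ℝ) / ((N : ℝ) ^ 2 - 1) ≤ 1 / N * (1 + 2 / (N : ℝ) ^ 2) := by
        rw [div_le_iff₀ hN2]
        have : 1 / (N : ℝ) * (1 + 2 / (N : ℝ) ^ 2) * ((N : ℝ) ^ 2 - 1) =
            (N ^ 4 + N ^ 2 - 2) / N ^ 3 := by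
          field_simp
          ring
        rw [this, le_div_iff₀ (by positivity)]
        nlinarith
      have e6 : 1 / (N : ℝ) ≤ 1 / N * (1 + 2 / (N : ℝ) ^ 2) := by
        have : 0 < 1 / (N : ℝ) := by positivity
        have h2 : 0 < 2 / (N : ℝ) ^ 2 := by positivity
        nlinarith
      have hh0 : (0 : ℝ) ≤ h := by positivity
      have hd2 : (0 : ℝ) ≤ d - 2 * h := by rw [← e3]; positivity
      rw [e4]
      calc (h : ℝ) * (2 * N / ((N : ℝ) ^ 2 - 1)) + (d - 2 * h) * (1 / (N : ℝ))
          = 2 * h * (N / ((N : ℝ) ^ 2 - 1)) + (d - 2 * h) * (1 / (N : ℝ)) := by ring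
        _ ≤ 2 * h * (1 / N * (1 + 2 / (N : ℝ) ^ 2)) +
            (d - 2 * h) * (1 / N * (1 + 2 / (N : ℝ) ^ 2)) := by
            apply add_le_add
            · exact mul_le_mul_of_nonneg_left e5 (by positivity)
            · exact mul_le_mul_of_nonneg_left e6 hd2
        _ = (d : ℝ) / N * (1 + 2 / (N : ℝ) ^ 2) := by ring
    have hpow : ((box (side d N)).card : ℝ) / N ≤
        ((box (side d N)).card : ℝ) ^ (((d : ℝ) - 1) / d) := by
      set c : ℝ := ((box (side d N)).card : ℝ) with hc
      have hdne : (d : ℝ) ≠ 0 := by positivity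
      have e7 : c ^ (((d : ℝ) - 1) / d) = c / c ^ ((1 : ℝ) / d) := by
        rw [← Real.rpow_one_sub' hcpos.le]
        · congr 1
          field_simp
        · have : (1 : ℝ) / d ≤ 1 / 2 := by
            apply one_div_le_one_div_of_le <;> linarith
          intro h0
          linarith
      rw [e7]
      apply div_le_div_of_nonneg_left hcpos.le
      · positivity
      · calc c ^ ((1 : ℝ) / d) ≤ ((N : ℝ) ^ d) ^ ((1 : ℝ) / d) := by
              apply Real.rpow_le_rpow hcpos.le hle (by positivity)
          _ = N := by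
              rw [← Real.rpow_natCast, ← Real.rpow_mul (by positivity)]
              rw [mul_one_div_cancel hdne, Real.rpow_one]
    calc 2 * ((box (side d N)).card : ℝ) * (((h : ℕ) : ℝ) * (1 / ((N + 1 : ℕ) : ℝ) + 1 / ((N - 1 : ℕ) : ℝ)) +
        ((d - 2 * h : ℕ) : ℝ) * (1 / (N : ℝ)))
        ≤ 2 * ((box (side d N)).card : ℝ) * ((d : ℝ) / N * (1 + 2 / (N : ℝ) ^ 2)) :=
          mul_le_mul_of_nonneg_left hsum (by positivity)
      _ = 2 * d * (((box (side d N)).card : ℝ) / N) * (1 + 2 / (N : ℝ) ^ 2) := by ring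
      _ ≤ 2 * d * ((box (side d N)).card : ℝ) ^ (((d : ℝ) - 1) / d) * (1 + 2 / (N : ℝ) ^ 2) := by
          apply mul_le_mul_of_nonneg_right _ (by positivity)
          exact mul_le_mul_of_nonneg_left hpow (by positivity)
  · intro b k hk
    set S := box (side d N) with hS
    set C := cube b k with hC
    set h : ℕ := d / 2 with hh
    have hh1 : 1 ≤ h := by omega
    have hhd : d ≤ 3 * h := by omega
    have hhN : h ≤ N := by omega
    set r : ℝ := (N : ℝ) / (N + 1) with hr
    have hr0 : 0 ≤ r := by positivity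
    -- the loss
    have hrh : r ^ h ≤ 1 - h / (2 * N) := by
      have h1 : (1 : ℝ) + h * (1 / N) ≤ (1 + 1 / N) ^ h :=
        one_add_mul_le_pow (by have : (0 : ℝ) ≤ 1 / N := by positivity
                               linarith) h
      have h2 : r ^ h = 1 / (1 + 1 / (N : ℝ)) ^ h := by
        rw [hr, one_div, ← inv_pow]
        congr 1
        field_simp
      rw [h2]
      have h3 : (0 : ℝ) < 1 + h * (1 / N) := by positivity
      refine (one_div_le_one_div_of_le h3 h1).trans ?_
      rw [div_le_iff₀ h3]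
      have hhN' : (h : ℝ) / N ≤ 1 := by
        rw [div_le_one (by positivity)]
        exact_mod_cast hhN
      have h4 : (0 : ℝ) ≤ h / N := by positivity
      have h5 : (1 - (h : ℝ) / (2 * N)) * (1 + h * (1 / N)) =
          1 + (h / N) / 2 - (h / N) ^ 2 / 2 := by
        field_simp
        ring
      rw [h5]
      nlinarith
    have hmain : ((S ∩ C).card : ℝ) ≤ r ^ h * S.card ∧ True ∨
        ((S ∩ C).card : ℝ) ≤ r ^ h * C.card ∧ (S.card : ℝ) ≤ C.card := by
      rcases Nat.lt_or_ge N k with hk' | hk'
      · right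
        refine ⟨?_, ?_⟩
        · have h1 := card_inter_le (side d N) b k
            (fun i => if i ∈ mi d then (N : ℝ) - 1 else k) (by
              intro i
              by_cases hi : i ∈ mi d
              · left
                simp only [hi, if_true]
                rw [side_mi hi, Nat.cast_sub (by omega)]
                simp
              · right
                simp only [hi, if_false]
                exact le_rfl)
          refine h1.trans ?_
          have h2 := prod_le_pow_mul (fun i : Fin d => if i ∈ mi d then (N : ℝ) - 1 else (k : ℝ))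
            (fun _ => (k : ℝ)) r (mi d) (by
              intro i
              split_ifs
              · linarith
              · positivity) (by
              intro i
              have : (N : ℝ) ≤ k := by exact_mod_cast hk'.le
              split_ifs
              · linarith
              · exact le_rfl) (by
              intro i hi
              simp only [hi, if_true]
              have : (N : ℝ) ≤ k := by exact_mod_cast hk'.le
              rw [hr, div_mul_eq_mul_div, le_div_iff₀ (by positivity)]
              nlinarith)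
          rw [card_mi] at h2
          refine h2.trans (le_of_eq ?_)
          rw [hC, card_cube, Finset.prod_const, Finset.card_univ, Fintype.card_fin]
          push_cast
          rfl
        · rw [hC, card_cube]
          refine hle.trans ?_
          push_cast
          apply pow_le_pow_left₀ (by positivity)
          exact_mod_cast hk'.le
      · left
        refine ⟨?_, trivial⟩
        have h1 := card_inter_le (side d N) b k
          (fun i => if i ∈ lo d then (N : ℝ) else side d N i) (by
            intro i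
            by_cases hi : i ∈ lo d
            · right
              simp only [hi, if_true]
              exact_mod_cast hk'
            · left
              simp only [hi, if_false]
              exact le_rfl)
        refine h1.trans ?_
        have h2 := prod_le_pow_mul (fun i : Fin d => if i ∈ lo d then (N : ℝ) else side d N i)
          (fun i => (side d N i : ℝ)) r (lo d) (by
            intro i
            split_ifs <;> positivity) (by
            intro i
            split_ifs with hi
            · rw [side_lo hi]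
              push_cast
              linarith
            · exact le_rfl) (by
            intro i hi
            simp only [hi, if_true]
            rw [side_lo hi, hr]
            push_cast
            rw [div_mul_cancel₀]
            positivity)
        rw [card_lo] at h2
        rw [hcard]
        exact h2
    have hsd : (h : ℝ) / (2 * N) * S.card ≤ ((symmDiff S C).card : ℝ) := by
      have e1 : ((S \ C).card : ℝ) = S.card - (S ∩ C).card := by
        have := Finset.card_sdiff_add_card_inter S C
        have h' : (((S \ C).card + (S ∩ C).card : ℕ) : ℝ) = S.card := by rw [this]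
        push_cast at h'
        linarith
      have e2 : ((C \ S).card : ℝ) = C.card - (S ∩ C).card := by
        have := Finset.card_sdiff_add_card_inter C S
        have h' : (((C \ S).card + (C ∩ S).card : ℕ) : ℝ) = C.card := by rw [this]
        rw [Finset.inter_comm C S] at h'
        push_cast at h'
        linarith
      have e3 : ((S \ C).card : ℝ) ≤ (symmDiff S C).card := by
        exact_mod_cast Finset.card_le_card (by
          intro x hx
          rw [Finset.mem_symmDiff]
          rw [Finset.mem_sdiff] at hx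
          exact Or.inl hx)
      have e4 : ((C \ S).card : ℝ) ≤ (symmDiff S C).card := by
        exact_mod_cast Finset.card_le_card (by
          intro x hx
          rw [Finset.mem_symmDiff]
          rw [Finset.mem_sdiff] at hx
          exact Or.inr hx)
      have hS0 : (0 : ℝ) ≤ S.card := by positivity
      have hC0 : (0 : ℝ) ≤ C.card := by positivity
      rcases hmain with ⟨h1, -⟩ | ⟨h1, h2⟩
      · nlinarith [mul_le_mul_of_nonneg_right hrh hS0]
      · have h3 : (0 : ℝ) ≤ h / (2 * N) := by positivity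
        nlinarith [mul_le_mul_of_nonneg_right hrh hC0, mul_le_mul_of_nonneg_left h2 h3]
    have hsq : √(2 / (N : ℝ) ^ 2) = √2 / N := by
      rw [Real.sqrt_div (by norm_num), Real.sqrt_sq (by positivity)]
    rw [hsq]
    have hs2 : √2 ≤ 3 / 2 := by
      rw [Real.sqrt_le_left (by norm_num)]
      norm_num
    have hs0 : 0 ≤ √2 := Real.sqrt_nonneg 2
    have hd3 : (d : ℝ) ≤ 3 * h := by exact_mod_cast hhd
    have hS0 : (0 : ℝ) ≤ S.card := by positivity
    calc (d : ℝ) * (√2 / N) * S.card ≤ (3 * h) * ((3 / 2) / N) * S.card := by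
          apply mul_le_mul_of_nonneg_right _ hS0
          apply mul_le_mul hd3 _ (by positivity) (by positivity)
          exact div_le_div_of_nonneg_right hs2 (by positivity)
      _ = 9 * ((h : ℝ) / (2 * N) * S.card) := by ring
      _ ≤ 9 * ((symmDiff S C).card : ℝ) := by linarith

/-- For every `d ≥ 2`, if a factor `g` is such that every finite nonempty `S ⊂ ℤ^d` whose edge
boundary is within a factor `1 + ε` of the optimum differs from some cube in at most `g √ε |S|`
points, then `g ≥ d / 9`.  In particular there is no absolute constant `c'` with which the factor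
`c' √d` works in all dimensions. -/
theorem result :
    (∀ d : ℕ, 2 ≤ d → ∀ g : ℝ,
      (∀ ε : ℝ, 0 < ε → ∀ S : Finset (Fin d → ℤ), S.Nonempty → NearOptimal d ε S →
        ∃ (a : Fin d → ℤ) (k : ℕ), 1 ≤ k ∧
          ((symmDiff S (cube a k)).card : ℝ) ≤ g * √ε * (S.card : ℝ)) →
      (d : ℝ) / 9 ≤ g) ∧
    ¬ ∃ c' : ℝ, 0 < c' ∧ ∀ d : ℕ, 1 ≤ d → ∀ ε : ℝ, 0 < ε → ∀ S : Finset (Fin d → ℤ),
      S.Nonempty → NearOptimal d ε S →
        ∃ (a : Fin d → ℤ) (k : ℕ), 1 ≤ k ∧
          ((symmDiff S (cube a k)).card : ℝ) ≤ c' * √(d * ε) * (S.card : ℝ) := by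
  have main : ∀ d : ℕ, 2 ≤ d → ∀ g : ℝ,
      (∀ ε : ℝ, 0 < ε → ∀ S : Finset (Fin d → ℤ), S.Nonempty → NearOptimal d ε S →
        ∃ (a : Fin d → ℤ) (k : ℕ), 1 ≤ k ∧
          ((symmDiff S (cube a k)).card : ℝ) ≤ g * √ε * (S.card : ℝ)) →
      (d : ℝ) / 9 ≤ g := by
    intro d hd g hg
    obtain ⟨h1, h2⟩ := key d d hd hd le_rfl
    have hd0 : (0 : ℝ) < d := by positivity
    have hcpos : (0 : ℝ) < (box (side d d)).card := by
      rw [card_box, Nat.cast_prod]
      apply Finset.prod_pos
      intro i _
      have : 0 < side d d i := by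
        unfold side
        split_ifs <;> omega
      exact_mod_cast this
    obtain ⟨a, k, hk, h3⟩ := hg _ (by positivity) _
      (Finset.card_pos.1 (by exact_mod_cast hcpos)) h1
    have h4 := h2 a k hk
    have hsq : 0 < √(2 / (d : ℝ) ^ 2) := Real.sqrt_pos.2 (by positivity)
    have h5 : (d : ℝ) * √(2 / (d : ℝ) ^ 2) * ((box (side d d)).card : ℝ) ≤
        9 * g * (√(2 / (d : ℝ) ^ 2) * ((box (side d d)).card : ℝ)) := by
      linarith
    have h6 : (0 : ℝ) < √(2 / (d : ℝ) ^ 2) * ((box (side d d)).card : ℝ) := by positivity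
    have h7 : (d : ℝ) ≤ 9 * g := by
      by_contra hcon
      push Not at hcon
      nlinarith
    linarith
  refine ⟨main, ?_⟩
  rintro ⟨c, hc, H⟩
  obtain ⟨n, hn⟩ := exists_nat_gt (81 * c ^ 2 + 2)
  have hn0 : (0 : ℝ) < n := by nlinarith [sq_nonneg c]
  have hn2 : 2 ≤ n := by
    have : (2 : ℝ) < n := by nlinarith [sq_nonneg c]
    have : 2 < n := by exact_mod_cast this
    omega
  have h1 := main n hn2 (c * √n) (by
    intro ε hε S hS0 hS
    obtain ⟨a, k, hk, h⟩ := H n (by omega) ε hε S hS0 hS
    refine ⟨a, k, hk, ?_⟩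
    rw [Real.sqrt_mul (by positivity)] at h
    rw [mul_assoc c]
    exact h)
  have h2 : (0 : ℝ) < √n := Real.sqrt_pos.2 hn0
  have h3 : √n * √n = n := Real.mul_self_sqrt hn0.le
  have h4 : √(n : ℝ) ≤ 9 * c := by
    by_contra hcon
    push Not at hcon
    nlinarith
  nlinarith

end Pool.Agent.Results.MP_5333ad_co.LinearInDimension
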